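import Pool.Agent.Q276.CN.Stm
import Pool.Agent.H510R2.Div

set_option autoImplicit false

namespace Pool.Agent.Q164.CN

open Finset Pool.Agent.Q276.CN

lemma red_eq {D : ℕ} {t : ℤ × ℤ × ℤ} (h : PF D t ∧ Rd t) :
    D = t.2.1.toNat ^ 2 + 4 * (t.1.natAbs * t.2.2.natAbs) ∧ 0 < t.2.1.toNat ∧
      0 < t.1.natAbs * t.2.2.natAbs := by
  obtain ⟨⟨h1, -⟩, h2, h3, -⟩ := h
  have hb : ((t.2.1.toNat : ℕ) : ℤ) = t.2.1 := Int.toNat_of_nonneg h2.le
  have hac : ((t.1.natAbs : ℕ) : ℤ) * ((t.2.2.natAbs : ℕ) : ℤ) = -(t.1 * t.2.2) := by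
    rw [Int.natCast_natAbs, Int.natCast_natAbs, ← abs_mul, abs_of_neg h3]
  refine ⟨?_, by omega, ?_⟩
  · have h4 : (D : ℤ) = ((t.2.1.toNat ^ 2 + 4 * (t.1.natAbs * t.2.2.natAbs) : ℕ) : ℤ) := by
      rw [Nat.cast_add, Nat.cast_pow, Nat.cast_mul, Nat.cast_mul, hb, hac]
      push_cast
      linarith
    exact_mod_cast h4
  · have h4 : (0 : ℤ) < ((t.1.natAbs * t.2.2.natAbs : ℕ) : ℤ) := by
      rw [Nat.cast_mul, hac]
      linarith
    exact_mod_cast h4

open Classical in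
lemma fib_card (hM : StmtMEM) (D b : ℕ) :
    ((redF D).filter (fun t => t.2.1.toNat = b)).card ≤ 2 * ((D - b ^ 2) / 4).divisors.card := by
  have hinj : Set.InjOn (fun t : ℤ × ℤ × ℤ => (t.1.natAbs, decide (0 < t.1)))
      ((redF D).filter (fun t => t.2.1.toNat = b) : Finset (ℤ × ℤ × ℤ)) := by
    rintro ⟨a, x, c⟩ h ⟨a', x', c'⟩ h' he
    rw [mem_coe, mem_filter, hM] at h h'
    simp only [Prod.mk.injEq, decide_eq_decide] at he
    obtain ⟨⟨⟨h1, -⟩, h2, h3, -⟩, h4⟩ := h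
    obtain ⟨⟨⟨h1', -⟩, h2', h3', -⟩, h4'⟩ := h'
    simp only at h1 h2 h3 h4 h1' h2' h3' h4'
    have ha0 : a ≠ 0 := by
      rintro rfl
      simp at h3
    have ha0' : a' ≠ 0 := by
      rintro rfl
      simp at h3'
    have haa : a = a' := by omega
    have hxx : x = x' := by omega
    subst haa
    subst hxx
    have hcc : c = c' := by
      have h5 : a * c = a * c' := by linarith
      exact mul_left_cancel₀ ha0 h5
    rw [hcc]
  have hmaps : ∀ t ∈ (redF D).filter (fun t => t.2.1.toNat = b),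
      (fun t : ℤ × ℤ × ℤ => (t.1.natAbs, decide (0 < t.1))) t ∈
        ((D - b ^ 2) / 4).divisors ×ˢ (Finset.univ : Finset Bool) := by
    intro t ht
    rw [mem_filter, hM] at ht
    obtain ⟨e1, e2, e3⟩ := red_eq ht.1
    rw [ht.2] at e1
    have e4 : (D - b ^ 2) / 4 = t.1.natAbs * t.2.2.natAbs := by
      rw [e1]
      omega
    rw [mem_product]
    refine ⟨?_, mem_univ _⟩
    show t.1.natAbs ∈ _
    rw [Nat.mem_divisors, e4]
    exact ⟨Dvd.intro _ rfl, e3.ne'⟩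
  have h1 := Finset.card_le_card_of_injOn _ hmaps hinj
  rw [card_product, card_univ, Fintype.card_bool] at h1
  linarith

theorem cnt (hM : StmtMEM) : StmtCNT := by
  classical
  intro ε hε
  obtain ⟨C, hC, hdiv⟩ := Pool.Agent.H510R2.divisor_bound ε hε
  refine ⟨2 * C, by positivity, ?_⟩
  intro D hD
  have hDr : (1 : ℝ) ≤ D := by exact_mod_cast hD
  have hD0 : (0 : ℝ) < D := by linarith
  have hmaps : ∀ t ∈ redF D, t.2.1.toNat ∈ Finset.Icc 1 (Nat.sqrt D) := by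
    intro t ht
    rw [hM] at ht
    obtain ⟨e1, e2, e3⟩ := red_eq ht
    rw [mem_Icc]
    refine ⟨e2, ?_⟩
    rw [Nat.le_sqrt']
    omega
  have hcard := Finset.card_eq_sum_card_fiberwise (f := fun t : ℤ × ℤ × ℤ => t.2.1.toNat)
    (s := redF D) (t := Finset.Icc 1 (Nat.sqrt D)) hmaps
  have hfib : ∀ b : ℕ, (((redF D).filter (fun t => t.2.1.toNat = b)).card : ℝ) ≤
      2 * C * (D : ℝ) ^ ε := by
    intro b
    have h1 := fib_card hM D b
    have h2 : ((((D - b ^ 2) / 4).divisors.card : ℕ) : ℝ) ≤ C * (D : ℝ) ^ ε := by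
      rcases Nat.eq_zero_or_pos ((D - b ^ 2) / 4) with h | h
      · rw [h]
        simp only [Nat.divisors_zero, card_empty, Nat.cast_zero]
        positivity
      · refine (hdiv _ h).trans ?_
        apply mul_le_mul_of_nonneg_left _ hC.le
        apply Real.rpow_le_rpow (Nat.cast_nonneg _) _ hε.le
        have h3 : (D - b ^ 2) / 4 ≤ D := (Nat.div_le_self _ _).trans (Nat.sub_le _ _)
        exact_mod_cast h3
    have h3 : (((redF D).filter (fun t => t.2.1.toNat = b)).card : ℝ) ≤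
        2 * ((((D - b ^ 2) / 4).divisors.card : ℕ) : ℝ) := by exact_mod_cast h1
    linarith
  have hsum : ((redF D).card : ℝ) ≤ (Nat.sqrt D : ℝ) * (2 * C * (D : ℝ) ^ ε) := by
    rw [hcard]
    push_cast
    calc ∑ b ∈ Finset.Icc 1 (Nat.sqrt D), (((redF D).filter (fun t => t.2.1.toNat = b)).card : ℝ)
        ≤ ∑ b ∈ Finset.Icc 1 (Nat.sqrt D), 2 * C * (D : ℝ) ^ ε :=
          Finset.sum_le_sum fun b _ => hfib b
      _ = (Nat.sqrt D : ℝ) * (2 * C * (D : ℝ) ^ ε) := by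
          rw [sum_const, Nat.card_Icc, nsmul_eq_mul]
          simp
  have hsq : (Nat.sqrt D : ℝ) ≤ (D : ℝ) ^ (1 / 2 : ℝ) := by
    rw [← Real.sqrt_eq_rpow]
    exact Real.nat_sqrt_le_real_sqrt
  calc ((redF D).card : ℝ) ≤ (Nat.sqrt D : ℝ) * (2 * C * (D : ℝ) ^ ε) := hsum
    _ ≤ (D : ℝ) ^ (1 / 2 : ℝ) * (2 * C * (D : ℝ) ^ ε) := by
        apply mul_le_mul_of_nonneg_right hsq
        positivity
    _ = 2 * C * (D : ℝ) ^ (1 / 2 + ε) := by
        rw [Real.rpow_add hD0]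
        ring

end Pool.Agent.Q164.CN
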